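import Pool.Agent.V7H57.TT.Period

/-!
# A flat half-plane on which one element acts as a translation
-/

set_option autoImplicit false

namespace Pool.Agent.V7H57.TT

open Function Set Pool.Agent.N47.SQ

variable {V : Type*} {G : Type*} [Group G] [MulAction G V] {Γ : SimpleGraph V}

/-- another flat separates from `f` at the row `n` -/
def Sing (Γ : SimpleGraph V) (f : ℤ × ℤ → V) (n : ℤ) : Prop :=
  ∃ k, IsFlat Γ k ∧ (∀ x y, y ≤ n → f (x, y) = k (x, y)) ∧ f (0, n + 1) ≠ k (0, n + 1)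

theorem tri_of (hΓ : IsMedian Γ) (h3 : NoThreeCube Γ) {f k : ℤ × ℤ → V} {n : ℤ}
    (hf : IsFlat Γ f) (hk : IsFlat Γ k) (hag : ∀ x y, y ≤ n → f (x, y) = k (x, y))
    (hne : f (0, n + 1) ≠ k (0, n + 1)) :
    IsTri Γ (fun a z => if a = 0 then f (z.1, n + z.2) else
      if a = 1 then f (z.1, n - z.2) else k (z.1, n + z.2)) := by
  have hne' : ∀ x, f (x, n + 1) ≠ k (x, n + 1) := by
    intro x h
    apply hne
    exact row_prop hΓ hf hk (y := n) (y' := n + 1) (by simp) (S := Set.univ)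
      Set.ordConnected_univ (fun x _ => hag x n le_rfl) (x₀ := x) trivial h 0 trivial
  have key : ∀ x x' m m' : ℤ, 0 ≤ m → 0 ≤ m' →
      (Γ.dist (f (x, n + m)) (k (x', n + m')) : ℤ) = |x - x'| + (m + m') := by
    intro x x' m m' hm hm'
    have := diverge hΓ h3 hf.swap hk.swap (x := n) (S := Set.univ)
      (fun y _ => ⟨y + 1, trivial, by simp⟩) (fun y _ => hag y n le_rfl) (fun y _ => hne' y)
      hm hm' (y := x) (y' := x') trivial trivial
    simp only [] at this
    rw [this]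
    ring
  rintro a b ⟨x, y⟩ ⟨x', y'⟩ hy hy'
  simp only [] at hy hy'
  have low : ∀ x y, 0 ≤ y → f (x, n - y) = k (x, n - y) := fun x y hy => hag x _ (by omega)
  have a1 : |n + y - (n + y')| = |y - y'| := by rw [add_sub_add_left_eq_sub]
  have a2 : |n + y - (n - y')| = y + y' := by
    rw [show n + y - (n - y') = y + y' by ring, abs_of_nonneg (by omega)]
  have a3 : |n - y - (n + y')| = y + y' := by
    rw [show n - y - (n + y') = -(y + y') by ring, abs_neg, abs_of_nonneg (by omega)]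
  have a4 : |n - y - (n - y')| = |y - y'| := by
    rw [show n - y - (n - y') = -(y - y') by ring, abs_neg]
  fin_cases a <;> fin_cases b <;> simp only [Fin.zero_eta, Fin.mk_one, Fin.reduceFinMk,
    Fin.isValue, if_true, one_ne_zero, if_false, Fin.reduceEq, zero_ne_one]
  · rw [hf, yd_same]; simp only []; rw [a1]
  · rw [hf, yd_ne (show (0 : Fin 3) ≠ 1 by decide)]; simp only []; rw [a2]
  · rw [key _ _ _ _ hy hy', yd_ne (show (0 : Fin 3) ≠ 2 by decide)]
  · rw [hf, yd_ne (show (1 : Fin 3) ≠ 0 by decide)]; simp only []; rw [a3]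
  · rw [hf, yd_same]; simp only []; rw [a4]
  · rw [low _ _ hy, hk, yd_ne (show (1 : Fin 3) ≠ 2 by decide)]; simp only []; rw [a3]
  · rw [dcomm, key _ _ _ _ hy' hy, yd_ne (show (2 : Fin 3) ≠ 0 by decide), abs_sub_comm]; ring
  · rw [low _ _ hy', hk, yd_ne (show (2 : Fin 3) ≠ 1 by decide)]; simp only []; rw [a2]
  · rw [hk, yd_same]; simp only []; rw [a1]

/-- one element translates all the rows above a singular row -/
theorem climb (hA : Act G Γ) {L : Set (ℤ × ℤ → V)} (hL : Sys G Γ L) {R : ℕ} (hR : 1 ≤ R)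
    (hTP : ¬ TP Γ L R) :
    ∃ T : ℕ, 0 < T ∧ ∀ f ∈ L, Sing Γ f 0 → ∃ ζ : G, ∀ x y : ℤ, 0 ≤ y →
      ζ • f (x, y) = f (x + T, y) := by
  have hLH : HInv L := fun h hh c => by
    have := hL.mv h hh 1 (c, 0)
    simp only [one_smul] at this
    have e : (fun z : ℤ × ℤ => h (z.1 + c, z.2)) = fun z => h (z + (c, 0)) := by
      funext z
      congr 1
      ext <;> simp
    rw [e]
    exact this
  obtain ⟨T, hT0, hT⟩ := period hA hLH hR hTP
  obtain ⟨M, hM0, hM⟩ := upow hA
  refine ⟨M * T, by positivity, fun f hfL h0 => ?_⟩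
  have hf := hL.flat f hfL
  -- rows above singular rows
  have hS : ∀ n : ℤ, Sing Γ f n → ∃ g : G, (∀ x, g • f (x, n) = f (x + T, n)) ∧
      ∀ x, g • f (x, n + 1) = f (x + T, n + 1) := by
    rintro n ⟨k, hk, hag, hne⟩
    obtain ⟨g, hg⟩ := hT _ ⟨tri_of hA.med hA.n3 hf hk hag hne, by
      have := hL.mv f hfL 1 (0, n)
      simp only [one_smul] at this
      refine (congrArg (· ∈ L) ?_).mpr this
      funext z
      simp only [pl, if_true, one_ne_zero, if_false]
      have e : z + (0, n) = (z.1, n + z.2) := by ext <;> simp [add_comm]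
      rw [e]
      by_cases hz : 0 ≤ z.2
      · rw [if_pos hz]
      · rw [if_neg hz, sub_neg_eq_add]⟩
    refine ⟨g, fun x => ?_, fun x => ?_⟩
    · simpa using hg 0 x 0 le_rfl (by omega)
    · simpa using hg 0 x 1 (by omega) (by omega)
  obtain ⟨g₀, h1, h2⟩ := hS 0 h0
  have key : ∀ n : ℕ, ∃ g : G, (∀ x, g • f (x, (n : ℤ)) = f (x + T, (n : ℤ))) ∧
      (∀ x, g • f (x, (n : ℤ) + 1) = f (x + T, (n : ℤ) + 1)) ∧ g ^ M = g₀ ^ M := by
    intro n
    induction n with
    | zero => exact ⟨g₀, by simpa using h1, by simpa using h2, rfl⟩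
    | succ n ih =>
      obtain ⟨g, e1, e2, e3⟩ := ih
      rw [show ((n + 1 : ℕ) : ℤ) = n + 1 by push_cast; ring]
      by_cases hs : Sing Γ f (n + 1)
      · obtain ⟨g', e4, e5⟩ := hS _ hs
        refine ⟨g', e4, e5, ?_⟩
        rw [← e3]
        exact hM g' g (fun x => f (x, (n : ℤ) + 1)) T e4 e2
      · refine ⟨g, e2, fun x => ?_, e3⟩
        by_contra hc
        apply hs
        have hf' := hf.smul hA g (-(T : ℤ), 0)
        have r1 : ∀ x, f (x, (n : ℤ)) = g • f ((x, (n : ℤ)) + (-(T : ℤ), 0)) := by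
          intro x
          simp only [Prod.mk_add_mk, add_zero]
          rw [e1]
          congr 2
          ring
        have r2 : ∀ x, f (x, (n : ℤ) + 1) = g • f ((x, (n : ℤ) + 1) + (-(T : ℤ), 0)) := by
          intro x
          simp only [Prod.mk_add_mk, add_zero]
          rw [e2]
          congr 2
          ring
        have hk := glue hA.med hA.n3 hf hf' n r1 r2
        refine ⟨_, hk, fun x y hy => ?_, fun h => ?_⟩
        · simp only []
          rw [if_pos hy]
        · have := row_prop hA.med hf hk (y := n + 1) (y' := n + 1 + 1) (by simp) (S := Set.univ)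
            Set.ordConnected_univ (fun x _ => by simp) (x₀ := 0) trivial h (x + T) trivial
          simp only [] at this
          rw [if_neg (by omega)] at this
          apply hc
          rw [this]
          simp
  refine ⟨g₀ ^ M, fun x y hy => ?_⟩
  obtain ⟨n, rfl⟩ := Int.eq_ofNat_of_zero_le hy
  obtain ⟨g, e1, -, e3⟩ := key n
  rw [← e3, pow_row (f := fun x => f (x, (n : ℤ))) e1 M x]
  push_cast
  rfl

/-- an element which acts as a translation on a half-plane gives `ℤ²` -/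
theorem half (hA : Act G Γ) {f : ℤ × ℤ → V} (hf : IsFlat Γ f) {ζ : G} {T : ℕ} (hT : 0 < T)
    (hζ : ∀ x y : ℤ, 0 ≤ y → ζ • f (x, y) = f (x + T, y)) :
    ∃ φ : Multiplicative (ℤ × ℤ) →* G, Injective φ := by
  classical
  obtain ⟨K, hK, hGK⟩ := hA.orb
  have hB := hA.ballK hK 1
  -- the elements which move a point of `K` by at most `T`
  have hC : {c : G | ∃ u ∈ K, Γ.dist u (c • u) ≤ T}.Finite := by
    have h1 : ∀ u w : V, {c : G | c • u = w}.Finite := by
      intro u w
      rcases Set.eq_empty_or_nonempty {c : G | c • u = w} with h | ⟨c₀, hc₀⟩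
      · rw [h]; exact Set.finite_empty
      · refine Set.Finite.of_injOn (f := fun c => c₀⁻¹ * c) (t := {g : G | g • u = u}) ?_ ?_
          (hA.stab u)
        · intro c hc
          simp only [Set.mem_ofPred_eq] at hc hc₀ ⊢
          rw [mul_smul, hc, inv_smul_eq_iff, hc₀]
        · intro c _ c' _ h
          exact mul_left_cancel h
    refine (hK.biUnion fun u _ => (hA.ball T u).biUnion fun w _ => h1 u w).subset ?_
    rintro c ⟨u, hu, hc⟩
    simp only [Set.mem_iUnion]
    exact ⟨u, hu, c • u, hc, rfl⟩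
  choose γ hγ using fun n : ℕ => hGK (f (0, (n : ℤ)))
  obtain ⟨i, -, j, -, hij, heq⟩ := Set.infinite_univ.exists_ne_map_eq_of_mapsTo
    (f := fun n : ℕ => (γ n • f (0, (n : ℤ)), γ n • f (0, (n : ℤ) + 1), γ n * ζ * (γ n)⁻¹))
    (t := K ×ˢ ({w | ∃ u ∈ K, Γ.dist u w ≤ 1} ×ˢ {c : G | ∃ u ∈ K, Γ.dist u (c • u) ≤ T}))
    (by
      intro n _
      refine ⟨hγ n, ⟨_, hγ n, ?_⟩, ⟨_, hγ n, ?_⟩⟩
      · simp only []
        rw [hA.dist, hf.dist_eq (n := 1) (by simp)]
      · simp only []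
        rw [mul_smul, mul_smul, inv_smul_smul, hA.dist, hζ _ _ (by omega),
          hf.dist_eq (n := T) (by simp)])
    (hK.prod (hB.prod hC))
  wlog hlt : i < j generalizing i j
  · exact this j i hij.symm heq.symm (by omega)
  obtain ⟨l, rfl⟩ := Nat.exists_eq_add_of_lt hlt
  simp only [Prod.mk.injEq] at heq
  obtain ⟨q1, q2, q3⟩ := heq
  set c := (γ (i + l + 1))⁻¹ * γ i with hc
  have c1 : c • f (0, (i : ℤ)) = f (0, (i : ℤ) + (l + 1)) := by
    rw [hc, mul_smul, inv_smul_eq_iff, q1,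
      show ((i + l + 1 : ℕ) : ℤ) = i + (l + 1) by push_cast; ring]
  have c2 : c • f (0, (i : ℤ) + 1) = f (0, (i : ℤ) + 1 + (l + 1)) := by
    rw [hc, mul_smul, inv_smul_eq_iff, q2,
      show ((i + l + 1 : ℕ) : ℤ) + 1 = i + 1 + (l + 1) by push_cast; ring]
  have hcomm : Commute c ζ := by
    have h1 : c * ζ = ζ * c := by
      rw [hc]
      have e := q3
      rw [mul_inv_eq_iff_eq_mul] at e
      calc (γ (i + l + 1))⁻¹ * γ i * ζ = (γ (i + l + 1))⁻¹ * (γ i * ζ) := by group
        _ = (γ (i + l + 1))⁻¹ * (γ (i + l + 1) * ζ * (γ (i + l + 1))⁻¹ * γ i) := by rw [e]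
        _ = ζ * ((γ (i + l + 1))⁻¹ * γ i) := by group
    exact h1
  have zrow : ∀ (v : V) (x : ℤ),
      Γ.dist v (f (x, (i : ℤ) + 1)) < Γ.dist v (f (x, (i : ℤ))) ↔
        Γ.dist v (f (0, (i : ℤ) + 1)) < Γ.dist v (f (0, (i : ℤ))) :=
    fun v x => row_indep hA.med hf.swap v i x 0
  refine z2_of hcomm {v | Γ.dist v (f (0, (i : ℤ) + 1)) < Γ.dist v (f (0, (i : ℤ)))} ?_
    (p := f (0, (i : ℤ) + (l + 1))) ?_ ?_ ?_ ?_
  · intro v hv
    simp only [Set.mem_ofPred_eq] at hv ⊢
    have h1 : Γ.dist (c • v) (f (0, (i : ℤ) + (l + 1 : ℕ) + 1)) <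
        Γ.dist (c • v) (f (0, (i : ℤ) + (l + 1 : ℕ))) := by
      rw [show (i : ℤ) + (l + 1 : ℕ) + 1 = i + 1 + (l + 1) by push_cast; ring,
        show (i : ℤ) + (l + 1 : ℕ) = i + (l + 1) by push_cast; ring, ← c1, ← c2, hA.dist, hA.dist]
      exact hv
    exact nested hA.med hA.n3 hf.swap (c • v) i 0 (l + 1) (by omega) h1
  · simp only [Set.mem_ofPred_eq]
    rw [hf.dist_eq (n := l) (by simp only [Int.abs_eq_natAbs]; omega),
      hf.dist_eq (n := l + 1) (by simp only [Int.abs_eq_natAbs]; omega)]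
    omega
  · rw [← c1, inv_smul_smul]
    simp only [Set.mem_ofPred_eq]
    rw [SimpleGraph.dist_self]
    omega
  · intro v
    simp only [Set.mem_ofPred_eq]
    rw [← zrow (ζ • v) (0 + T), ← hζ 0 _ (by omega), ← hζ 0 _ (by omega), hA.dist, hA.dist]
  · intro n hn h1
    have h2 := pow_row (f := fun x => f (x, 0)) (fun x => hζ x 0 le_rfl) n 0
    rw [h1, one_smul] at h2
    have h3 := hf.inj h2
    simp only [Prod.mk.injEq, and_true] at h3
    have h4 : 0 < n * T := by positivity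
    have h5 : ((n * T : ℕ) : ℤ) = 0 := by push_cast; omega
    omega

end Pool.Agent.V7H57.TT
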