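import Pool.Agent.V7H57.TT.Main

/-!
# Facing triples of half-spaces at large distance
-/

set_option autoImplicit false

namespace Pool.Agent.V7H57.TT

open Function Set Pool.Agent.N47.SQ

variable {V : Type*} {G : Type*} [Group G] [MulAction G V] {Γ : SimpleGraph V}

/-- the half-space of the vertices which are closer to `q` than to `p` -/
def hs (Γ : SimpleGraph V) (p q : V) : Set V := {v | Γ.dist v q < Γ.dist v p}

/-- an isometric embedding of the product of two infinite tripods -/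
def IsYY (Γ : SimpleGraph V) (F : Fin 3 → ℕ → Fin 3 → ℕ → V) : Prop :=
  ∀ (a b a' b' : Fin 3) (m n m' n' : ℕ),
    (Γ.dist (F a m b n) (F a' m' b' n') : ℤ) = yd a m a' m' + yd b n b' n'

/-- a plane of a product of two tripods -/
def qp (F : Fin 3 → ℕ → Fin 3 → ℕ → V) (a a' b b' : Fin 3) (z : ℤ × ℤ) : V :=
  F (if 0 ≤ z.1 then a else a') z.1.natAbs (if 0 ≤ z.2 then b else b') z.2.natAbs

theorem yd_line {a a' : Fin 3} (h : a ≠ a') (x x' : ℤ) :
    yd (if 0 ≤ x then a else a') x.natAbs (if 0 ≤ x' then a else a') x'.natAbs = |x - x'| := by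
  by_cases h1 : 0 ≤ x <;> by_cases h2 : 0 ≤ x'
  · rw [if_pos h1, if_pos h2, yd_same, Int.natAbs_of_nonneg h1, Int.natAbs_of_nonneg h2]
  · rw [if_pos h1, if_neg h2, yd_ne h, Int.natAbs_of_nonneg h1,
      Int.ofNat_natAbs_of_nonpos (by omega), abs_of_nonneg (by omega : 0 ≤ x - x')]
    ring
  · rw [if_neg h1, if_pos h2, yd_ne h.symm, Int.natAbs_of_nonneg h2,
      Int.ofNat_natAbs_of_nonpos (by omega), abs_sub_comm, abs_of_nonneg (by omega : 0 ≤ x' - x)]
    ring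
  · rw [if_neg h1, if_neg h2, yd_same, Int.ofNat_natAbs_of_nonpos (by omega),
      Int.ofNat_natAbs_of_nonpos (by omega), abs_sub_comm]
    congr 1
    ring

theorem IsYY.flat {F : Fin 3 → ℕ → Fin 3 → ℕ → V} (hF : IsYY Γ F) {a a' b b' : Fin 3}
    (ha : a ≠ a') (hb : b ≠ b') : IsFlat Γ (qp F a a' b b') := by
  intro z w
  rw [qp, qp, hF, yd_line ha, yd_line hb]

theorem IsYY.swap {F : Fin 3 → ℕ → Fin 3 → ℕ → V} (hF : IsYY Γ F) :
    IsYY Γ (fun a m b n => F b n a m) := by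
  intro a b a' b' m n m' n'
  rw [hF]
  ring

theorem IsYY.cen (hΓ : IsMedian Γ) {F : Fin 3 → ℕ → Fin 3 → ℕ → V} (hF : IsYY Γ F) (a a' b : Fin 3)
    (n : ℕ) : F a 0 b n = F a' 0 b n := by
  rw [← hΓ.eq_iff]
  have := hF a b a' b 0 n 0 n
  rw [Nat.cast_zero, yd_same, sub_self, abs_zero, add_zero] at this
  have e := yd_zero a a' 0
  rw [Nat.cast_zero] at e
  rw [e] at this
  omega

/-- the half-spaces of a leg of the second tripod do not depend on the point of the first -/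
theorem IsYY.indep (hΓ : IsMedian Γ) {F : Fin 3 → ℕ → Fin 3 → ℕ → V} (hF : IsYY Γ F)
    (a b : Fin 3) (i n : ℕ) :
    hs Γ (F a i b n) (F a i b (n + 1)) = hs Γ (F 0 0 b n) (F 0 0 b (n + 1)) := by
  obtain ⟨a', ha⟩ := exists_ne3 a
  obtain ⟨b', hb⟩ := exists_ne3 b
  rw [hF.cen hΓ 0 a b n, hF.cen hΓ 0 a b (n + 1)]
  ext v
  have h := row_indep hΓ (hF.flat ha hb).swap v n i 0
  have e1 : ∀ j k : ℕ, qp F a a' b b' ((j : ℤ), (k : ℤ)) = F a j b k := fun j k => by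
    simp [qp]
  have e2 := e1 i n
  have e3 := e1 i (n + 1)
  have e4 := e1 0 n
  have e5 := e1 0 (n + 1)
  push_cast at e2 e3 e4 e5
  simp only [] at h
  rw [e2, e3, e4, e5] at h
  exact h

/-- the gate and half-spaces -/
theorem gate_hs {f : ℤ × ℤ → V} {v : V} {x₀ y₀ c : ℤ}
    (hg : ∀ x y : ℤ, (Γ.dist v (f (x, y)) : ℤ) = c + |x - x₀| + |y - y₀|) (x y : ℤ) :
    Γ.dist v (f (x + 1, y)) < Γ.dist v (f (x, y)) ↔ x + 1 ≤ x₀ := by
  have e1 := hg x y
  have e2 := hg (x + 1) y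
  constructor
  · intro h
    by_contra hc
    rw [abs_of_nonneg (by omega : 0 ≤ x - x₀)] at e1
    rw [abs_of_nonneg (by omega : 0 ≤ x + 1 - x₀)] at e2
    omega
  · intro h
    rw [abs_of_nonpos (by omega : x - x₀ ≤ 0)] at e1
    rw [abs_of_nonpos (by omega : x + 1 - x₀ ≤ 0)] at e2
    omega

/-- gates of adjacent vertices -/
theorem gate_lip (hΓ : IsMedian Γ) {f : ℤ × ℤ → V} {v v' : V} (hv : Γ.Adj v v')
    {x₀ y₀ c x₁ y₁ c' : ℤ}
    (hg : ∀ x y : ℤ, (Γ.dist v (f (x, y)) : ℤ) = c + |x - x₀| + |y - y₀|)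
    (hg' : ∀ x y : ℤ, (Γ.dist v' (f (x, y)) : ℤ) = c' + |x - x₁| + |y - y₁|) :
    |x₀ - x₁| ≤ 1 := by
  have h1 := (adj_iff v v').2 hv
  have h2 := dcomm (Γ := Γ) v v'
  have t1 := hΓ.tri v v' (f (x₁, y₁))
  have t2 := hΓ.tri v' v (f (x₀, y₀))
  have e1 := hg x₁ y₁
  have e2 := hg x₀ y₀
  have e3 := hg' x₁ y₁
  have e4 := hg' x₀ y₀
  simp only [sub_self, abs_zero, add_zero] at e2 e3
  rw [abs_sub_comm x₁, abs_sub_comm y₁] at e1
  have := abs_nonneg (y₀ - y₁)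
  omega

/-- the three half-spaces are far from each other -/
theorem IsYY.far (hΓ : IsMedian Γ) (h3 : NoThreeCube Γ) {F : Fin 3 → ℕ → Fin 3 → ℕ → V}
    (hF : IsYY Γ F) {b b' : Fin 3} (hb : b ≠ b') (R : ℕ) {v w : V}
    (hv : v ∈ hs Γ (F 0 0 b R) (F 0 0 b (R + 1))) (hw : w ∈ hs Γ (F 0 0 b' R) (F 0 0 b' (R + 1))) :
    2 * R + 2 ≤ Γ.dist v w := by
  obtain ⟨P, hPdef⟩ : ∃ P : ℤ × ℤ → V, P = fun z => qp F 0 1 b b' (z.2, z.1) := ⟨_, rfl⟩
  have hP : IsFlat Γ P := by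
    rw [hPdef]
    exact (hF.flat (show (0 : Fin 3) ≠ 1 by decide) hb).swap
  have e1 : ∀ k : ℕ, P ((k : ℤ), 0) = F 0 0 b k := fun k => by
    simp [hPdef, qp]
  have e2 : ∀ k : ℕ, P (-(k : ℤ), 0) = F 0 0 b' k := fun k => by
    rcases Nat.eq_zero_or_pos k with rfl | hk
    · have := hF.swap.cen hΓ b b' 0 0
      simpa [hPdef, qp] using this
    · have h0 : ¬ k = 0 := by omega
      simp [hPdef, qp, h0]
  obtain ⟨y₀, x₀, c, hg⟩ := gate hΓ h3 hP v
  obtain ⟨y₁, x₁, c', hg'⟩ := gate hΓ h3 hP w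
  have a1 := (gate_hs hg R 0).1 (by
    have := e1 (R + 1)
    push_cast at this
    rw [this, e1]
    exact hv)
  have b1 : y₁ ≤ -(R : ℤ) - 1 := by
    by_contra hc
    have := (gate_hs hg' (-(R : ℤ) - 1) 0).2 (by omega)
    simp only [sub_add_cancel] at this
    have e3 := e2 (R + 1)
    push_cast at e3
    rw [show -(R : ℤ) - 1 = -(R + 1) by ring, e3, e2] at this
    simp only [hs, Set.mem_ofPred_eq] at hw
    omega
  have t1 := hΓ.tri v w (F 0 0 b' (R + 1))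
  have t2 := hΓ.tri w v (F 0 0 b (R + 1))
  have hvw := dcomm (Γ := Γ) v w
  have g1 := hg (R + 1) 0
  have g2 := hg (-(R + 1)) 0
  have g3 := hg' (R + 1) 0
  have g4 := hg' (-(R + 1)) 0
  have e3 := e1 (R + 1)
  have e4 := e2 (R + 1)
  push_cast at e3 e4
  rw [e3] at g1 g3
  rw [e4] at g2 g4
  rw [abs_of_nonpos (by omega : (R : ℤ) + 1 - y₀ ≤ 0)] at g1
  rw [abs_of_nonpos (by omega : -((R : ℤ) + 1) - y₀ ≤ 0)] at g2
  rw [abs_of_nonneg (by omega : 0 ≤ (R : ℤ) + 1 - y₁)] at g3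
  rw [abs_of_nonneg (by omega : 0 ≤ -((R : ℤ) + 1) - y₁)] at g4
  omega

/-- an element which maps a column of the product to another one on the same leg -/
theorem IsYY.shift (hA : Act G Γ) {F : Fin 3 → ℕ → Fin 3 → ℕ → V} (hF : IsYY Γ F) (R : ℕ)
    (a : Fin 3) : ∃ (g : G) (i j : ℕ), i < j ∧ ∀ (b : Fin 3) (n : ℕ), n ≤ R + 1 →
      g • F a i b n = F a j b n ∧ g • F a (i + 1) b n = F a (j + 1) b n := by
  obtain ⟨K, hK, hGK⟩ := hA.orb
  choose γ hγ using fun i : ℕ => hGK (F a i 0 0)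
  have hB := hA.ballK hK (R + 2)
  obtain ⟨i, -, j, -, hij, heq⟩ := Set.infinite_univ.exists_ne_map_eq_of_mapsTo
    (f := fun (i : ℕ) (p : Fin 3 × Fin (R + 2)) => (γ i • F a i p.1 p.2, γ i • F a (i + 1) p.1 p.2))
    (t := Set.pi Set.univ fun _ => {w | ∃ u ∈ K, Γ.dist u w ≤ R + 2} ×ˢ
      {w | ∃ u ∈ K, Γ.dist u w ≤ R + 2}) (by
      intro i _
      rw [Set.mem_pi]
      rintro ⟨b, n⟩ -
      have hn := n.2
      have e0 := yd_zero 0 b n
      refine ⟨⟨_, hγ i, ?_⟩, ⟨_, hγ i, ?_⟩⟩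
      · simp only []
        rw [hA.dist]
        have := hF a 0 a b i 0 i n
        rw [yd_same, sub_self, abs_zero, zero_add, Nat.cast_zero, e0] at this
        omega
      · simp only []
        rw [hA.dist]
        have := hF a 0 a b i 0 (i + 1) n
        rw [yd_same, Nat.cast_zero, e0] at this
        push_cast at this
        rw [show (i : ℤ) - (i + 1) = -1 by ring, abs_neg, abs_one] at this
        omega)
    (Set.Finite.pi fun _ => hB.prod hB)
  wlog hlt : i < j generalizing i j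
  · exact this j i hij.symm heq.symm (by omega)
  refine ⟨(γ j)⁻¹ * γ i, i, j, hlt, fun b n hn => ?_⟩
  have := congrFun heq (b, ⟨n, by omega⟩)
  simp only [Prod.mk.injEq] at this
  rw [mul_smul, mul_smul, inv_smul_eq_iff, inv_smul_eq_iff]
  exact this

theorem smul_hs (hA : Act G Γ) (g : G) (p q v : V) : g • v ∈ hs Γ (g • p) (g • q) ↔
    v ∈ hs Γ p q := by
  simp only [hs, Set.mem_ofPred_eq]
  rw [hA.dist, hA.dist]

/-- no element contracts two disjoint half-spaces -/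
theorem no_common (hA : Act G Γ) {U U' : Set V} {w : G} (hU : ∀ y ∈ U, w • y ∈ U)
    (hN : ∀ y ∈ U, ∀ y', Γ.Adj (w • y) y' → y' ∈ U) (hw' : ∀ y ∈ U', w • y ∈ U')
    (hdisj : ∀ y ∈ U', y ∉ U) (hne : U.Nonempty) (hne' : U'.Nonempty) : False := by
  have hall : ∀ m : ℕ, ∀ y ∈ U, w ^ m • y ∈ U := by
    intro m
    induction m with
    | zero => intro y hy; simpa using hy
    | succ m ihm =>
      intro y hy
      rw [pow_succ, mul_smul]
      exact ihm _ (hU y hy)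
  have hall' : ∀ m : ℕ, ∀ y ∈ U', w ^ m • y ∈ U' := by
    intro m
    induction m with
    | zero => intro y hy; simpa using hy
    | succ m ihm =>
      intro y hy
      rw [pow_succ, mul_smul]
      exact ihm _ (hw' y hy)
  have key : ∀ n : ℕ, ∀ y ∈ U, ∀ x ∉ U, n ≤ Γ.dist (w ^ n • y) x := by
    intro n
    induction n with
    | zero => intro y _ x _; omega
    | succ n ih =>
      intro y hy x hx
      obtain ⟨p, hp⟩ := (hA.med.1 (w ^ (n + 1) • y) x).exists_walk_length_eq_dist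
      cases p with
      | nil => exact absurd (hall (n + 1) y hy) hx
      | @cons _ u _ h p' =>
        have h1 := SimpleGraph.dist_le p'
        rw [SimpleGraph.Walk.length_cons] at hp
        have h2 : Γ.Adj (w • y) ((w ^ n)⁻¹ • u) := by
          have := hA.aut (w ^ n)⁻¹ _ _ h
          rwa [pow_succ, mul_smul, inv_smul_smul] at this
        have h3 := ih _ (hN y hy _ h2) x hx
        rw [smul_inv_smul] at h3
        omega
  obtain ⟨y, hy⟩ := hne
  obtain ⟨y', hy'⟩ := hne'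
  have h1 := key (Γ.dist y y' + 1) y hy _ (hdisj _ (hall' (Γ.dist y y' + 1) y' hy'))
  rw [hA.dist] at h1
  omega

/-- nested half-spaces on a leg -/
theorem IsYY.nest (hA : Act G Γ) {F : Fin 3 → ℕ → Fin 3 → ℕ → V} (hF : IsYY Γ F) (a : Fin 3)
    {i j : ℕ} (hij : i < j) {y : V} (hy : y ∈ hs Γ (F a j 0 0) (F a (j + 1) 0 0)) :
    y ∈ hs Γ (F a i 0 0) (F a (i + 1) 0 0) ∧
      ∀ y', Γ.Adj y y' → y' ∈ hs Γ (F a i 0 0) (F a (i + 1) 0 0) := by
  obtain ⟨a', ha⟩ := exists_ne3 a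
  have hP := hF.flat ha (show (0 : Fin 3) ≠ 1 by decide)
  have e1 : ∀ k : ℕ, qp F a a' 0 1 ((k : ℤ), 0) = F a k 0 0 := fun k => by simp [qp]
  have e2 : ∀ k : ℕ, qp F a a' 0 1 ((k : ℤ) + 1, 0) = F a (k + 1) 0 0 := fun k => by
    have := e1 (k + 1)
    push_cast at this
    exact this
  obtain ⟨x₀, y₀, c, hg⟩ := gate hA.med hA.n3 hP y
  have h1 := (gate_hs hg j 0).1 (by rw [e1, e2]; exact hy)
  refine ⟨?_, fun y' hadj => ?_⟩
  · have := (gate_hs hg i 0).2 (by omega)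
    rw [e1, e2] at this
    exact this
  · obtain ⟨x₁, y₁, c', hg'⟩ := gate hA.med hA.n3 hP y'
    have h2 := gate_lip hA.med hadj hg hg'
    rw [abs_le] at h2
    have := (gate_hs hg' i 0).2 (by omega)
    rw [e1, e2] at this
    exact this

/-- the half-spaces of different legs are disjoint -/
theorem IsYY.disj (hA : Act G Γ) {F : Fin 3 → ℕ → Fin 3 → ℕ → V} (hF : IsYY Γ F) {a a' : Fin 3}
    (ha : a ≠ a') (i i' : ℕ) {y : V} (hy : y ∈ hs Γ (F a i 0 0) (F a (i + 1) 0 0)) :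
    y ∉ hs Γ (F a' i' 0 0) (F a' (i' + 1) 0 0) := by
  intro hy'
  have hP := hF.flat ha (show (0 : Fin 3) ≠ 1 by decide)
  have e1 : ∀ k : ℕ, qp F a a' 0 1 ((k : ℤ), 0) = F a k 0 0 := fun k => by simp [qp]
  have e2 : ∀ k : ℕ, qp F a a' 0 1 ((k : ℤ) + 1, 0) = F a (k + 1) 0 0 := fun k => by
    have := e1 (k + 1)
    push_cast at this
    exact this
  have e3 : ∀ k : ℕ, qp F a a' 0 1 (-((k : ℤ) + 1), 0) = F a' (k + 1) 0 0 := fun k => by
    have h0 : ¬ ((0 : ℤ) ≤ -((k : ℤ) + 1)) := by omega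
    simp only [qp, h0, if_false, le_refl, if_true, Int.natAbs_zero]
    congr 1
  have e4 : ∀ k : ℕ, qp F a a' 0 1 (-(k : ℤ), 0) = F a' k 0 0 := fun k => by
    rcases k with _ | k
    · have := hF.cen hA.med a a' 0 0
      simpa [qp] using this
    · push_cast
      exact e3 k
  obtain ⟨x₀, y₀, c, hg⟩ := gate hA.med hA.n3 hP y
  have h1 := (gate_hs hg i 0).1 (by rw [e1, e2]; exact hy)
  have h2 := (gate_hs hg (-((i' : ℤ) + 1)) 0).2 (by omega)
  rw [show -((i' : ℤ) + 1) + 1 = -(i' : ℤ) by ring, e3, e4] at h2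
  simp only [hs, Set.mem_ofPred_eq] at hy'
  omega

/-- three half-spaces, and elements which preserve them -/
theorem facing (hA : Act G Γ) {F : Fin 3 → ℕ → Fin 3 → ℕ → V} (hF : IsYY Γ F) (R : ℕ)
    (H : Subgroup G) (hH : ∀ g : G, (∀ (b : Fin 3) (v : V),
      g • v ∈ hs Γ (F 0 0 b R) (F 0 0 b (R + 1)) ↔ v ∈ hs Γ (F 0 0 b R) (F 0 0 b (R + 1))) →
      g ∈ H) : ∀ z ∈ H, (Subgroup.zpowers z).relIndex H = 0 := by
  intro z hz
  by_contra hne
  choose g i j hij hg using fun a : Fin 3 => hF.shift hA R a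
  -- the elements are in `H`
  have hgH : ∀ a, g a ∈ H := by
    intro a
    apply hH
    intro b v
    have e := smul_hs (Γ := Γ) hA (g a) (F a (i a) b R) (F a (i a) b (R + 1)) v
    rw [(hg a b R (by omega)).1, (hg a b (R + 1) le_rfl).1, hF.indep hA.med a b (j a) R,
      hF.indep hA.med a b (i a) R] at e
    exact e
  choose m hm _ hmz using fun a : Fin 3 => Subgroup.exists_pow_mem_of_relIndex_ne_zero hne (hgH a)
  have hk : ∀ a, ∃ k : ℤ, z ^ k = g a ^ m a := fun a => Subgroup.mem_zpowers_iff.1 (hmz a).1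
  choose k hk using hk
  -- the half-spaces
  obtain ⟨U, hU⟩ : ∃ U : Fin 3 → Set V, ∀ a, U a = hs Γ (F a (i a) 0 0) (F a (i a + 1) 0 0) :=
    ⟨_, fun _ => rfl⟩
  have hgU : ∀ a, ∀ y ∈ U a, g a • y ∈ U a ∧ ∀ y', Γ.Adj (g a • y) y' → y' ∈ U a := by
    intro a y hy
    rw [hU] at hy
    have h1 := (smul_hs (Γ := Γ) hA (g a) _ _ y).2 hy
    rw [(hg a 0 0 (by omega)).1, (hg a 0 0 (by omega)).2] at h1
    have h2 := hF.nest hA a (hij a) h1
    rw [hU]
    exact h2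
  have hpow : ∀ a, ∀ n : ℕ, ∀ y ∈ U a, g a ^ n • y ∈ U a := by
    intro a n
    induction n with
    | zero => intro y hy; simpa using hy
    | succ n ih => intro y hy; rw [pow_succ, mul_smul]; exact ih _ (hgU a y hy).1
  have hpow' : ∀ a, ∀ n : ℕ, 0 < n → ∀ y ∈ U a, ∀ y', Γ.Adj (g a ^ n • y) y' → y' ∈ U a := by
    intro a n hn y hy y' hadj
    obtain ⟨n, rfl⟩ := Nat.exists_eq_succ_of_ne_zero hn.ne'
    rw [Nat.succ_eq_add_one, pow_succ', mul_smul] at hadj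
    exact (hgU a _ (hpow a n y hy)).2 y' hadj
  have hneU : ∀ a, (U a).Nonempty := by
    intro a
    refine ⟨F a (i a + 1) 0 0, ?_⟩
    rw [hU]
    simp only [hs, Set.mem_ofPred_eq]
    rw [SimpleGraph.dist_self]
    have := hF a 0 a 0 (i a + 1) 0 (i a) 0
    rw [yd_same, yd_same] at this
    push_cast at this
    rw [show ((i a : ℤ) + 1 - i a) = 1 by ring, abs_one, abs_zero, add_zero] at this
    omega
  have hdis : ∀ a a', a ≠ a' → ∀ y ∈ U a', y ∉ U a := by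
    intro a a' ha y hy
    rw [hU] at hy ⊢
    exact hF.disj hA ha.symm _ _ hy
  -- no common powers
  have hno : ∀ a a' : Fin 3, a ≠ a' → ∀ M M' : ℕ, 0 < M → g a ^ M ≠ g a' ^ M' := by
    intro a a' ha M M' hM he
    refine no_common hA (U := U a) (U' := U a') (w := g a ^ M) (hpow a M) (hpow' a M hM) ?_
      (hdis a a' ha) (hneU a) (hneU a')
    rw [he]
    exact hpow a' M'
  have hk0 : ∀ a, k a ≠ 0 := by
    intro a h0
    obtain ⟨a', ha⟩ := exists_ne3 a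
    apply hno a a' ha (m a) 0 (hm a)
    rw [← hk a, h0, zpow_zero, pow_zero]
  have hsame : ∀ a a' : Fin 3, a ≠ a' → ¬ (0 < k a ∧ 0 < k a') ∧ ¬ (k a < 0 ∧ k a' < 0) := by
    intro a a' ha
    have h1 : g a ^ (m a * (k a').natAbs) = z ^ (k a * (k a').natAbs) := by
      rw [pow_mul, ← hk a, zpow_mul, zpow_natCast]
    have h2 : g a' ^ (m a' * (k a).natAbs) = z ^ (k a' * (k a).natAbs) := by
      rw [pow_mul, ← hk a', zpow_mul, zpow_natCast]
    have hpos : 0 < m a * (k a').natAbs := by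
      have := Int.natAbs_pos.2 (hk0 a')
      have := hm a
      positivity
    refine ⟨fun h => ?_, fun h => ?_⟩
    · apply hno a a' ha _ (m a' * (k a).natAbs) hpos
      rw [h1, h2]
      congr 1
      rw [Int.natAbs_of_nonneg h.1.le, Int.natAbs_of_nonneg h.2.le]
      ring
    · apply hno a a' ha _ (m a' * (k a).natAbs) hpos
      rw [h1, h2]
      congr 1
      rw [Int.ofNat_natAbs_of_nonpos h.1.le, Int.ofNat_natAbs_of_nonpos h.2.le]
      ring
  have s1 := hsame 0 1 (by decide)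
  have s2 := hsame 0 2 (by decide)
  have s3 := hsame 1 2 (by decide)
  have n0 := hk0 0
  have n1 := hk0 1
  have n2 := hk0 2
  rcases lt_or_gt_of_ne n0 with p0 | p0 <;> rcases lt_or_gt_of_ne n1 with p1 | p1 <;>
    rcases lt_or_gt_of_ne n2 with p2 | p2
  · exact s1.2 ⟨p0, p1⟩
  · exact s1.2 ⟨p0, p1⟩
  · exact s2.2 ⟨p0, p2⟩
  · exact s3.1 ⟨p1, p2⟩
  · exact s3.2 ⟨p1, p2⟩
  · exact s2.1 ⟨p0, p2⟩
  · exact s1.1 ⟨p0, p1⟩
  · exact s1.1 ⟨p0, p1⟩

end Pool.Agent.V7H57.TT
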