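import Pool.Agent.N47.SQ.Pairs

/-!
# Distances from a vertex to a flat, and gluing of flats
-/

set_option autoImplicit false

namespace Pool.Agent.V7H57.TT

open Function Set Pool.Agent.N47.SQ

variable {V : Type*} {Γ : SimpleGraph V}

/-- once the distance from `v` grows along a row it grows forever -/
theorem grow (hΓ : IsMedian Γ) (h3 : NoThreeCube Γ) {f : ℤ × ℤ → V} (hf : IsFlat Γ f) (v : V)
    (x y : ℤ) (h1 : Γ.dist v (f (x + 1, y)) = Γ.dist v (f (x, y)) + 1) (n : ℕ) :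
    Γ.dist v (f (x + n, y)) = Γ.dist v (f (x, y)) + n ∧
      Γ.dist v (f (x + n + 1, y)) = Γ.dist v (f (x + n, y)) + 1 := by
  induction n with
  | zero => simpa using h1
  | succ n ih =>
    obtain ⟨ih1, ih2⟩ := ih
    have e : x + ((n + 1 : ℕ) : ℤ) = x + n + 1 := by push_cast; ring
    rw [e]
    refine ⟨by omega, ?_⟩
    have h4 := hΓ.ne_dist (hf.adj (z := (x + n + 1, y)) (w := (x + n + 1 + 1, y)) (by simp)) v
    rcases h4 with h4 | h4
    · exfalso
      refine no_max hΓ h3 hf v (x + n + 1) y ?_ h4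
      rw [show x + (n : ℤ) + 1 - 1 = x + n by ring]
      exact ih2
    · exact h4

/-- the distance along a row from a local minimum -/
theorem vrow (hΓ : IsMedian Γ) (h3 : NoThreeCube Γ) {f : ℤ × ℤ → V} (hf : IsFlat Γ f) (v : V)
    (x y : ℤ) (h1 : Γ.dist v (f (x, y)) ≤ Γ.dist v (f (x + 1, y)))
    (h2 : Γ.dist v (f (x, y)) ≤ Γ.dist v (f (x - 1, y))) (x' : ℤ) :
    (Γ.dist v (f (x', y)) : ℤ) = Γ.dist v (f (x, y)) + |x' - x| := by
  rcases le_total x x' with hl | hl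
  · obtain ⟨n, hn⟩ := Int.eq_ofNat_of_zero_le (sub_nonneg.2 hl)
    have h4 := hΓ.ne_dist (hf.adj (z := (x, y)) (w := (x + 1, y)) (by simp)) v
    have h5 := (grow hΓ h3 hf v x y (by omega) n).1
    rw [show x' = x + n by omega, h5]
    simp
  · obtain ⟨n, hn⟩ := Int.eq_ofNat_of_zero_le (sub_nonneg.2 hl)
    have h4 := hΓ.ne_dist (hf.adj (z := (x, y)) (w := (x - 1, y)) (by simp)) v
    have h5 := (grow hΓ h3 hf.neg1 v (-x) y (by
      simp only [neg_neg]
      rw [show -(-x + 1) = x - 1 by ring]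
      omega) n).1
    simp only [neg_neg] at h5
    rw [show x' = -(-x + (n : ℤ)) by omega, h5]
    rw [show -(-x + (n : ℤ)) - x = -n by ring]
    simp

/-- the direction of the distance along rows does not depend on the row -/
theorem row_indep (hΓ : IsMedian Γ) {f : ℤ × ℤ → V} (hf : IsFlat Γ f) (v : V) (x y y' : ℤ) :
    Γ.dist v (f (x + 1, y)) < Γ.dist v (f (x, y)) ↔
      Γ.dist v (f (x + 1, y')) < Γ.dist v (f (x, y')) :=
  ⟨par hΓ hf y', par hΓ hf y⟩

/-- the gate of a vertex on a flat -/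
theorem gate (hΓ : IsMedian Γ) (h3 : NoThreeCube Γ) {f : ℤ × ℤ → V} (hf : IsFlat Γ f) (v : V) :
    ∃ x₀ y₀ c : ℤ, ∀ x y : ℤ, (Γ.dist v (f (x, y)) : ℤ) = c + |x - x₀| + |y - y₀| := by
  classical
  have hex : ∃ n : ℕ, ∃ z : ℤ × ℤ, Γ.dist v (f z) = n := ⟨_, 0, rfl⟩
  obtain ⟨⟨x₀, y₀⟩, hz⟩ := Nat.find_spec hex
  have hmin : ∀ z, Γ.dist v (f (x₀, y₀)) ≤ Γ.dist v (f z) := by
    intro z
    rw [hz]
    exact Nat.find_min' hex ⟨z, rfl⟩
  have hrow := vrow hΓ h3 hf v x₀ y₀ (hmin _) (hmin _)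
  have hcol := vrow hΓ h3 hf.swap v y₀ x₀ (hmin _) (hmin _)
  simp only [] at hcol
  refine ⟨x₀, y₀, Γ.dist v (f (x₀, y₀)), fun x y => ?_⟩
  have r1 := hrow (x₀ + 1)
  have r2 := hrow (x₀ - 1)
  simp only [add_sub_cancel_left, abs_one] at r1
  rw [show x₀ - 1 - x₀ = -1 by ring, abs_neg, abs_one] at r2
  have i1 := row_indep hΓ hf v x₀ y₀ y
  have i2 := row_indep hΓ hf v (x₀ - 1) y₀ y
  rw [show x₀ - 1 + 1 = x₀ by ring] at i2
  have n1 := hΓ.ne_dist (hf.adj (z := (x₀, y)) (w := (x₀ + 1, y)) (by simp)) v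
  have n2 := hΓ.ne_dist (hf.adj (z := (x₀, y)) (w := (x₀ - 1, y)) (by simp)) v
  have h := vrow hΓ h3 hf v x₀ y (by
    by_contra hc
    have := i1.2 (by omega)
    omega) (by
    by_contra hc
    have h5 : ¬ (Γ.dist v (f (x₀, y)) < Γ.dist v (f (x₀ - 1, y))) := by omega
    rw [← i2] at h5
    omega) x
  rw [h, hcol y]
  ring

/-- two flats which agree on a part of a column and differ on the next one diverge -/
theorem diverge (hΓ : IsMedian Γ) (h3 : NoThreeCube Γ) {h k : ℤ × ℤ → V} (hh : IsFlat Γ h)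
    (hk : IsFlat Γ k) {x : ℤ} {S : Set ℤ} (hS : ∀ y ∈ S, ∃ y' ∈ S, |y - y'| = 1)
    (hag : ∀ y ∈ S, h (x, y) = k (x, y)) (hne : ∀ y ∈ S, h (x + 1, y) ≠ k (x + 1, y))
    {m m' y y' : ℤ} (hm : 0 ≤ m) (hm' : 0 ≤ m') (hy : y ∈ S) (hy' : y' ∈ S) :
    (Γ.dist (h (x + m, y)) (k (x + m', y')) : ℤ) = m + m' + |y - y'| := by
  rcases hm.eq_or_lt with rfl | hm0
  · rw [add_zero, hag y hy, hk]
    simp only []
    rw [show x - (x + m') = -m' by ring, abs_neg, abs_of_nonneg hm']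
    ring
  obtain ⟨x₀, y₀, c, hg⟩ := gate hΓ h3 hk (h (x + m, y))
  have hx₀ : x₀ ≤ x := by
    by_contra hc
    obtain ⟨y'', hy'', h1⟩ := hS y hy
    refine Ex.cornerless hΓ h3 hh hk (x := x) (y := y) (y' := y'') h1 (hag y hy) (hag y'' hy'')
      (hne y hy) (v := h (x + m, y)) ?_ ?_
    · have e1 := hh (x + m, y) (x, y)
      have e2 := hh (x + m, y) (x + 1, y)
      simp only [sub_self, abs_zero, add_zero, add_sub_cancel_left] at e1 e2
      rw [show x + m - (x + 1) = m - 1 by ring, abs_of_nonneg (by omega)] at e2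
      rw [abs_of_nonneg hm] at e1
      omega
    · have e1 := hg x y
      have e2 := hg (x + 1) y
      rw [← hag y hy] at e1
      rw [abs_sub_comm, abs_of_nonneg (by omega)] at e1 e2
      omega
  have e1 := hg x y'
  have e2 := hg (x + m') y'
  have e3 := hh (x + m, y) (x, y')
  rw [hag y' hy'] at e3
  simp only [add_sub_cancel_left] at e3
  rw [abs_of_nonneg hm] at e3
  rw [abs_of_nonneg (by omega : 0 ≤ x - x₀)] at e1
  rw [abs_of_nonneg (by omega : 0 ≤ x + m' - x₀)] at e2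
  omega

/-- two flats which agree on two rows can be glued -/
theorem glue (hΓ : IsMedian Γ) (h3 : NoThreeCube Γ) {f f' : ℤ × ℤ → V} (hf : IsFlat Γ f)
    (hf' : IsFlat Γ f') (n : ℤ) (h1 : ∀ x, f (x, n) = f' (x, n))
    (h2 : ∀ x, f (x, n + 1) = f' (x, n + 1)) :
    IsFlat Γ (fun z => if z.2 ≤ n + 1 then f z else f' z) := by
  have key : ∀ x x' y y' : ℤ, y ≤ n + 1 → n + 1 < y' →
      (Γ.dist (f' (x', y')) (f (x, y)) : ℤ) = |x - x'| + |y - y'| := by
    intro x x' y y' hy hy'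
    obtain ⟨x₀, y₀, c, hg⟩ := gate hΓ h3 hf (f' (x', y'))
    have e1 := hg x n
    have e2 := hg x (n + 1)
    have e3 := hg x y
    rw [h1, hf'] at e1
    rw [h2, hf'] at e2
    simp only [] at e1 e2
    rw [abs_sub_comm] at e1 e2
    rw [abs_of_nonneg (by omega : 0 ≤ y' - n)] at e1
    rw [abs_of_nonneg (by omega : 0 ≤ y' - (n + 1))] at e2
    have hy₀ : n + 1 ≤ y₀ := by
      by_contra hc
      rw [abs_of_nonneg (by omega : 0 ≤ n - y₀)] at e1
      rw [abs_of_nonneg (by omega : 0 ≤ n + 1 - y₀)] at e2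
      omega
    rw [abs_sub_comm n, abs_of_nonneg (by omega : 0 ≤ y₀ - n)] at e1
    rw [abs_sub_comm y y₀, abs_of_nonneg (by omega : 0 ≤ y₀ - y)] at e3
    rw [abs_sub_comm y y', abs_of_nonneg (by omega : 0 ≤ y' - y)]
    omega
  rintro ⟨x, y⟩ ⟨x', y'⟩
  simp only []
  by_cases hy : y ≤ n + 1 <;> by_cases hy' : y' ≤ n + 1
  · rw [if_pos hy, if_pos hy', hf]
  · rw [if_pos hy, if_neg hy', dcomm]
    exact key x x' y y' hy (by omega)
  · rw [if_neg hy, if_pos hy']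
    rw [key x' x y' y hy' (by omega), abs_sub_comm x', abs_sub_comm y']
  · rw [if_neg hy, if_neg hy', hf']

end Pool.Agent.V7H57.TT
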