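import Pool.Agent.V7H57.TT.Climb

/-!
# Products of infinite tripods
-/

set_option autoImplicit false

namespace Pool.Agent.V7H57.TT

open Function Set Pool.Agent.N47.SQ

variable {V : Type*} {G : Type*} [Group G] [MulAction G V] {Γ : SimpleGraph V}

/-- no `ℤ²`: products of tripods at every scale -/
theorem tp_all (hA : Act G Γ) {L : Set (ℤ × ℤ → V)} (hL : Sys G Γ L) (hne : L.Nonempty)
    (hZ : ¬ ∃ φ : Multiplicative (ℤ × ℤ) →* G, Injective φ) {R : ℕ} (hR : 1 ≤ R) :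
    TP Γ L R := by
  by_contra hTP
  obtain ⟨T, hT, hcl⟩ := climb hA hL hR hTP
  obtain ⟨f, hf, k, hk, h1, h2⟩ := up_pair hA hL hne hZ
  obtain ⟨ζ, hζ⟩ := hcl f hf ⟨k, hL.flat k hk, h1, by simpa using h2⟩
  exact hZ (half hA (hL.flat f hf) hT hζ)

theorem yd_zero (a b : Fin 3) (m : ℕ) : yd a 0 b m = m := by
  by_cases h : a = b
  · rw [h, yd_same, zero_sub, abs_neg, abs_of_nonneg (by omega)]
  · rw [yd_ne h, zero_add]

/-- no `ℤ²`: products of infinite tripods -/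
theorem tp_inf (hA : Act G Γ) {L : Set (ℤ × ℤ → V)} (hL : Sys G Γ L) (hne : L.Nonempty)
    (hZ : ¬ ∃ φ : Multiplicative (ℤ × ℤ) →* G, Injective φ) :
    ∃ F : Fin 3 → ℕ → Fin 3 → ℕ → V, (∀ R, IsTP Γ R F) ∧ ∃ h ∈ L, ∀ R, InTP R F h := by
  obtain ⟨K, hK, hGK⟩ := hA.orb
  choose F hF h hh hi using fun R : ℕ => tp_all hA hL hne hZ (R := R + 1) (by omega)
  choose g hg using fun R : ℕ => hGK (F R 0 0 0 0)
  obtain ⟨f, hf⟩ := cluster (ι := (Fin 3 × ℕ × Fin 3 × ℕ) ⊕ (ℤ × ℤ))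
    (fun R i => g R • (match i with
      | Sum.inl (a, m, b, n) => if m ≤ R + 1 ∧ n ≤ R + 1 then F R a m b n else F R 0 0 0 0
      | Sum.inr z => h R z))
    (fun i => {w | ∃ u ∈ K, Γ.dist u w ≤ (match i with
      | Sum.inl (_, m, _, n) => m + n
      | Sum.inr z => z.1.natAbs + z.2.natAbs)})
    (fun i => hA.ballK hK _) (by
      rintro R (⟨a, m, b, n⟩ | z)
      · simp only []
        split_ifs with hmn
        · refine ⟨_, hg R, ?_⟩
          rw [hA.dist]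
          have := hF R 0 0 a b 0 0 m n (by omega) (by omega) hmn.1 hmn.2
          simp only [Nat.cast_zero, yd_zero] at this
          omega
        · exact ⟨_, hg R, by rw [SimpleGraph.dist_self]; omega⟩
      · refine ⟨_, hg R, ?_⟩
        simp only []
        rw [hA.dist]
        have e := (hi R 0 0 (by omega) (by omega)).1
        simp only [Nat.cast_zero] at e
        rw [← e]
        have := hL.flat _ (hh R) (0, 0) z
        simp only [zero_sub, abs_neg, Int.abs_eq_natAbs] at this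
        omega)
  refine ⟨fun a m b n => f (Sum.inl (a, m, b, n)), ?_, fun z => f (Sum.inr z), ?_, ?_⟩
  · intro R a b a' b' m n m' n' h1 h2 h3 h4
    obtain ⟨N, hN, e⟩ := hf {Sum.inl (a, m, b, n), Sum.inl (a', m', b', n')}
      (Set.toFinite _) R
    have e1 := e _ (Or.inl rfl)
    have e2 := e _ (Or.inr rfl)
    simp only [] at e1 e2
    rw [if_pos (by omega)] at e1 e2
    show (Γ.dist (f (Sum.inl (a, m, b, n))) (f (Sum.inl (a', m', b', n'))) : ℤ) = _
    rw [← e1, ← e2, hA.dist]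
    exact hF N _ _ _ _ _ _ _ _ (by omega) (by omega) (by omega) (by omega)
  · apply hL.clo
    intro R
    obtain ⟨N, -, e⟩ := hf (Sum.inr '' {z : ℤ × ℤ | z.1.natAbs ≤ R ∧ z.2.natAbs ≤ R})
      ((win_finite R).image _) 0
    refine ⟨_, hL.mv _ (hh N) (g N) 0, fun z h1 h2 => ?_⟩
    rw [← e _ ⟨z, ⟨h1, h2⟩, rfl⟩, add_zero]
  · intro R m n h1 h2
    obtain ⟨N, hN, e⟩ := hf (Sum.inl '' (Set.univ ×ˢ ({m} ×ˢ (Set.univ ×ˢ {n}))) ∪
      {Sum.inr ((m : ℤ), (n : ℤ)), Sum.inr (-(m : ℤ), (n : ℤ)), Sum.inr ((m : ℤ), -(n : ℤ)),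
        Sum.inr (-(m : ℤ), -(n : ℤ))})
      (Set.toFinite _) R
    obtain ⟨i1, i2, i3, i4⟩ := hi N m n (by omega) (by omega)
    have eF : ∀ a b : Fin 3, f (Sum.inl (a, m, b, n)) = g N • F N a m b n := by
      intro a b
      rw [← e _ (Or.inl ⟨(a, m, b, n), by simp, rfl⟩)]
      simp only []
      rw [if_pos (by omega)]
    have e1 := e (Sum.inr ((m : ℤ), (n : ℤ))) (by simp)
    have e2 := e (Sum.inr (-(m : ℤ), (n : ℤ))) (by simp)
    have e3 := e (Sum.inr ((m : ℤ), -(n : ℤ))) (by simp)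
    have e4 := e (Sum.inr (-(m : ℤ), -(n : ℤ))) (by simp)
    simp only [] at e1 e2 e3 e4 ⊢
    rw [← e1, ← e2, ← e3, ← e4, eF, eF, eF, eF, i1, i2, i3, i4]
    exact ⟨rfl, rfl, rfl, rfl⟩

end Pool.Agent.V7H57.TT
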