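import Pool.Agent.V7H57.TT.Tri

/-!
# Uniform periods
-/

set_option autoImplicit false

namespace Pool.Agent.V7H57.TT

open Function Set Pool.Agent.N47.SQ

variable {V : Type*} {G : Type*} [Group G] [MulAction G V] {Γ : SimpleGraph V}

theorem IsTri.smul (hA : Act G Γ) {t : Fin 3 → ℤ × ℤ → V} (ht : IsTri Γ t) (g : G) :
    IsTri Γ (fun a z => g • t a z) := fun a b z w hz hw => by
  rw [hA.dist]
  exact ht a b z w hz hw

theorem pow_row {f : ℤ → V} {g : G} {τ : ℤ} (h : ∀ x, g • f x = f (x + τ)) (n : ℕ) :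
    ∀ x, g ^ n • f x = f (x + n * τ) := by
  induction n with
  | zero => intro x; simp
  | succ n ih =>
    intro x
    rw [pow_succ, mul_smul, h x, ih]
    congr 1
    push_cast
    ring

/-- translations of the rows of tripods times lines, all by the same distance -/
theorem period (hA : Act G Γ) {L : Set (ℤ × ℤ → V)} (hL : HInv L) {R : ℕ} (hR : 1 ≤ R)
    (hTP : ¬ TP Γ L R) :
    ∃ T : ℕ, 0 < T ∧ ∀ t : Fin 3 → ℤ × ℤ → V, LTri Γ L t → ∃ g : G,
      ∀ (a : Fin 3) (x y : ℤ), 0 ≤ y → y ≤ R → g • t a (x, y) = t a (x + T, y) := by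
  classical
  obtain ⟨K, hK, hGK⟩ := hA.orb
  have hB := hA.ballK hK (2 * R)
  set B := {w | ∃ u ∈ K, Γ.dist u w ≤ 2 * R} with hBdef
  have _ : Fintype B := hB.fintype
  set N := Fintype.card ((Fin 3 × (Finset.Icc (-(R : ℤ)) 0) × (Finset.Icc (0 : ℤ) R)) → B) with hN
  refine ⟨N.factorial, Nat.factorial_pos _, fun t htL => ?_⟩
  have ht := htL.tri
  choose γ hγ using fun n : ℕ => hGK (t 0 ((n : ℤ), 0))
  have hmem : ∀ (n : ℕ) (a : Fin 3) (d y : ℤ), -(R : ℤ) ≤ d → d ≤ 0 → 0 ≤ y → y ≤ R →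
      γ n • t a (n + d, y) ∈ B := by
    intro n a d y h1 h2 h4 h5
    refine ⟨_, hγ n, ?_⟩
    rw [hA.dist]
    have := ht 0 a ((n : ℤ), 0) (n + d, y) le_rfl h4
    simp only [sub_add_cancel_left, abs_neg] at this
    rw [abs_of_nonpos h2] at this
    have e : yd 0 0 a y = y := by
      by_cases h : (0 : Fin 3) = a
      · rw [← h, yd_same, zero_sub, abs_neg, abs_of_nonneg h4]
      · rw [yd_ne h, zero_add]
    rw [e] at this
    omega
  obtain ⟨i, j, hij, hP⟩ := Fintype.exists_ne_map_eq_of_card_lt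
    (fun (n : Fin (N + 1)) (p : Fin 3 × (Finset.Icc (-(R : ℤ)) 0) × (Finset.Icc (0 : ℤ) R)) =>
      (⟨γ n • t p.1 ((n : ℕ) + (p.2.1 : ℤ), (p.2.2 : ℤ)), hmem n p.1 p.2.1 p.2.2
        (Finset.mem_Icc.1 p.2.1.2).1 (Finset.mem_Icc.1 p.2.1.2).2
        (Finset.mem_Icc.1 p.2.2.2).1 (Finset.mem_Icc.1 p.2.2.2).2⟩ : B))
    (by rw [← hN, Fintype.card_fin]; omega)
  wlog hlt : i < j generalizing i j
  · exact this j i hij.symm hP.symm (lt_of_le_of_ne (not_lt.1 hlt) hij.symm)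
  have hPt : ∀ (a : Fin 3) (d y : ℤ), -(R : ℤ) ≤ d → d ≤ 0 → 0 ≤ y → y ≤ R →
      γ i • t a ((i : ℕ) + d, y) = γ j • t a ((j : ℕ) + d, y) := by
    intro a d y h1 h2 h4 h5
    have := congrFun hP (a, ⟨d, Finset.mem_Icc.2 ⟨h1, h2⟩⟩, ⟨y, Finset.mem_Icc.2 ⟨h4, h5⟩⟩)
    simpa using this
  have hsp := tspread hA.med hA.n3 hL hR hTP (htL.sh hL (((j : ℕ) : ℤ) - ((i : ℕ) : ℤ)))
    (ht.smul hA ((γ j)⁻¹ * γ i)) ((i : ℕ) : ℤ) (by
      intro a x y h1 h2 h4 h5
      have := hPt a (x - (i : ℕ)) y (by omega) (by omega) h4 h5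
      simp only []
      symm
      rw [mul_smul, inv_smul_eq_iff]
      rw [show ((i : ℕ) : ℤ) + (x - (i : ℕ)) = x by ring,
        show ((j : ℕ) : ℤ) + (x - (i : ℕ)) = x + ((j : ℕ) - (i : ℕ)) by ring] at this
      exact this)
  obtain ⟨q, hq⟩ := Nat.dvd_factorial (m := (j : ℕ) - (i : ℕ)) (n := N)
    (by have := Fin.lt_def.1 hlt; omega) (by omega)
  refine ⟨((γ j)⁻¹ * γ i) ^ q, fun a x y h1 h2 => ?_⟩
  rw [pow_row (f := fun x => t a (x, y)) (fun x => (hsp a x y h1 h2).symm) q x]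
  congr 2
  rw [hq]
  push_cast [(Fin.lt_def.1 hlt).le]
  ring

theorem stab_bound (hA : Act G Γ) : ∃ s : ℕ, ∀ v : V, {g : G | g • v = v}.ncard ≤ s := by
  classical
  obtain ⟨K, hK, hGK⟩ := hA.orb
  refine ⟨∑ u ∈ hK.toFinset, {g : G | g • u = u}.ncard, fun v => ?_⟩
  obtain ⟨γ, hγ⟩ := hGK v
  refine le_trans ?_ (Finset.single_le_sum (f := fun u => {g : G | g • u = u}.ncard)
    (fun _ _ => Nat.zero_le _) (hK.mem_toFinset.2 hγ))
  refine Set.ncard_le_ncard_of_injOn (fun g => γ * g * γ⁻¹) ?_ ?_ (hA.stab _)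
  · intro g hg
    simp only [Set.mem_ofPred_eq] at hg ⊢
    rw [mul_smul, mul_smul, inv_smul_smul, hg]
  · intro g _ g' _ h
    simpa using h

/-- two elements which translate the same line by the same distance have a common power -/
theorem upow (hA : Act G Γ) : ∃ M : ℕ, 0 < M ∧ ∀ (a b : G) (f : ℤ → V) (T : ℤ),
    (∀ x, a • f x = f (x + T)) → (∀ x, b • f x = f (x + T)) → a ^ M = b ^ M := by
  classical
  obtain ⟨s, hs⟩ := stab_bound hA
  refine ⟨s.factorial, Nat.factorial_pos _, fun a b f T h1 h2 => ?_⟩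
  have hfin := hA.stab (f 0)
  obtain ⟨n, hn, m, hm, hne, heq⟩ := Finset.exists_ne_map_eq_of_card_lt_of_maps_to
    (s := Finset.range (s + 1)) (t := hfin.toFinset) (f := fun n : ℕ => (b ^ n)⁻¹ * a ^ n) (by
      rw [Finset.card_range, ← Set.ncard_eq_toFinset_card _ hfin]
      have := hs (f 0)
      omega) (by
      intro n _
      rw [Finset.mem_coe, Set.Finite.mem_toFinset]
      simp only [Set.mem_ofPred_eq]
      rw [mul_smul, inv_smul_eq_iff, pow_row h1, pow_row h2])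
  wlog hlt : n < m generalizing n m
  · exact this m hm n hn hne.symm heq.symm (by omega)
  obtain ⟨d, rfl⟩ := Nat.exists_eq_add_of_lt hlt
  have e : (b ^ n)⁻¹ * a ^ n = (b ^ n)⁻¹ * ((b ^ (d + 1))⁻¹ * a ^ (d + 1)) * a ^ n := by
    have h := heq
    rw [show n + d + 1 = (d + 1) + n by ring, pow_add b, pow_add a, mul_inv_rev] at h
    rw [h]
    simp only [mul_assoc]
  have e2 : (b ^ (d + 1))⁻¹ * a ^ (d + 1) = 1 := by
    have h := mul_right_cancel e
    exact (mul_eq_left.1 h.symm)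
  have e3 := (inv_mul_eq_one.1 e2).symm
  obtain ⟨q, hq⟩ := Nat.dvd_factorial (m := d + 1) (n := s) (by omega) (by
    rw [Finset.mem_range] at hm; omega)
  rw [hq, pow_mul, pow_mul, e3]

end Pool.Agent.V7H57.TT
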