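import Pool.Agent.V7H57.TT.Gate

/-!
# Tripods times lines, and products of tripods
-/

set_option autoImplicit false

namespace Pool.Agent.V7H57.TT

open Function Set Pool.Agent.N47.SQ

variable {V : Type*} {Γ : SimpleGraph V}

/-- the distance in a tripod -/
def yd (a : Fin 3) (m : ℤ) (b : Fin 3) (n : ℤ) : ℤ := if a = b then |m - n| else m + n

theorem yd_same (a : Fin 3) (m n : ℤ) : yd a m a n = |m - n| := by simp [yd]

theorem yd_ne {a b : Fin 3} (h : a ≠ b) (m n : ℤ) : yd a m b n = m + n := by simp [yd, h]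

theorem yd_comm (a : Fin 3) (m : ℤ) (b : Fin 3) (n : ℤ) : yd a m b n = yd b n a m := by
  by_cases h : a = b
  · subst h
    rw [yd_same, yd_same, abs_sub_comm]
  · rw [yd_ne h, yd_ne (Ne.symm h), add_comm]

/-- an isometric embedding of `ℤ × Y`, where `Y` is the infinite tripod -/
def IsTri (Γ : SimpleGraph V) (t : Fin 3 → ℤ × ℤ → V) : Prop :=
  ∀ a b z w, 0 ≤ z.2 → 0 ≤ w.2 →
    (Γ.dist (t a z) (t b w) : ℤ) = |z.1 - w.1| + yd a z.2 b w.2

/-- a plane in `ℤ × Y` -/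
def pl (t : Fin 3 → ℤ × ℤ → V) (a b : Fin 3) (z : ℤ × ℤ) : V :=
  if 0 ≤ z.2 then t a z else t b (z.1, -z.2)

theorem IsTri.zero (hΓ : IsMedian Γ) {t : Fin 3 → ℤ × ℤ → V} (ht : IsTri Γ t) (a b : Fin 3)
    (x : ℤ) : t a (x, 0) = t b (x, 0) := by
  rw [← hΓ.eq_iff]
  have := ht a b (x, 0) (x, 0) le_rfl le_rfl
  simp only [sub_self, abs_zero, zero_add] at this
  by_cases h : a = b
  · subst h
    simp
  · rw [yd_ne h] at this
    simpa using this

theorem pl_pos (t : Fin 3 → ℤ × ℤ → V) (a b : Fin 3) (x y : ℤ) (hy : 0 ≤ y) :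
    pl t a b (x, y) = t a (x, y) := by simp [pl, hy]

theorem pl_neg (hΓ : IsMedian Γ) {t : Fin 3 → ℤ × ℤ → V} (ht : IsTri Γ t) (a b : Fin 3)
    (x y : ℤ) (hy : 0 ≤ y) : pl t a b (x, -y) = t b (x, y) := by
  rcases hy.eq_or_lt with rfl | h
  · rw [neg_zero, pl_pos _ _ _ _ _ le_rfl]
    exact ht.zero hΓ a b x
  · simp only [pl]
    rw [if_neg (by omega), neg_neg]

theorem IsTri.flat {t : Fin 3 → ℤ × ℤ → V} (ht : IsTri Γ t) {a b : Fin 3} (hab : a ≠ b) :
    IsFlat Γ (pl t a b) := by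
  rintro ⟨x, y⟩ ⟨x', y'⟩
  simp only [pl]
  by_cases hy : 0 ≤ y <;> by_cases hy' : 0 ≤ y'
  · rw [if_pos hy, if_pos hy', ht _ _ _ _ hy hy', yd_same]
  · rw [if_pos hy, if_neg hy', ht _ _ _ _ hy (by simp only []; omega), yd_ne hab]
    simp only []
    rw [abs_of_nonneg (by omega : 0 ≤ y - y')]
    ring
  · rw [if_neg hy, if_pos hy', ht _ _ _ _ (by simp only []; omega) hy', yd_ne hab.symm]
    simp only []
    rw [abs_sub_comm y, abs_of_nonneg (by omega : 0 ≤ y' - y)]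
    ring
  · rw [if_neg hy, if_neg hy', ht _ _ _ _ (by simp only []; omega) (by simp only []; omega),
      yd_same]
    simp only []
    rw [show -y - -y' = -(y - y') by ring, abs_neg]

theorem exists_ne3 (a : Fin 3) : ∃ b : Fin 3, a ≠ b := by
  fin_cases a
  · exact ⟨1, by decide⟩
  · exact ⟨0, by decide⟩
  · exact ⟨0, by decide⟩

/-- an isometric product of two tripods with legs of length `R` -/
def IsTP (Γ : SimpleGraph V) (R : ℕ) (F : Fin 3 → ℕ → Fin 3 → ℕ → V) : Prop :=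
  ∀ a b a' b' : Fin 3, ∀ m n m' n' : ℕ, m ≤ R → n ≤ R → m' ≤ R → n' ≤ R →
    (Γ.dist (F a m b n) (F a' m' b' n') : ℤ) = yd a m a' m' + yd b n b' n'

/-- `h` is, in the square of size `R`, a plane of the product `F` -/
def InTP (R : ℕ) (F : Fin 3 → ℕ → Fin 3 → ℕ → V) (h : ℤ × ℤ → V) : Prop :=
  ∀ m n : ℕ, m ≤ R → n ≤ R → h (m, n) = F 0 m 0 n ∧ h (-m, n) = F 1 m 0 n ∧
    h (m, -n) = F 0 m 1 n ∧ h (-m, -n) = F 1 m 1 n

/-- a product of two tripods with legs of length `R`, one of whose planes is a member of `L` -/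
def TP (Γ : SimpleGraph V) (L : Set (ℤ × ℤ → V)) (R : ℕ) : Prop :=
  ∃ F, IsTP Γ R F ∧ ∃ h ∈ L, InTP R F h

/-- reflection of a family of flats -/
def ng (L : Set (ℤ × ℤ → V)) : Set (ℤ × ℤ → V) := {h | (fun z => h (-z.1, z.2)) ∈ L}

theorem TP.neg {L : Set (ℤ × ℤ → V)} {R : ℕ} (h : TP Γ (ng L) R) : TP Γ L R := by
  obtain ⟨F, hF, h, hh, hi⟩ := h
  refine ⟨fun a => F (if a = 0 then 1 else if a = 1 then 0 else 2), ?_, _, hh, ?_⟩
  · intro a b a' b' m n m' n' h1 h2 h3 h4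
    rw [hF _ _ _ _ _ _ _ _ h1 h2 h3 h4]
    congr 1
    have e : (((if a = 0 then 1 else if a = 1 then 0 else 2 : Fin 3)) =
        (if a' = 0 then 1 else if a' = 1 then 0 else 2 : Fin 3)) ↔ a = a' := by
      fin_cases a <;> fin_cases a' <;> decide
    simp only [yd, e]
  · intro m n h1 h2
    obtain ⟨i1, i2, i3, i4⟩ := hi m n h1 h2
    simp only [if_true, one_ne_zero, if_false, neg_neg]
    exact ⟨i2, i1, i4, i3⟩

/-- the members of a family of tripods times lines one of whose planes is in `L` -/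
structure LTri (Γ : SimpleGraph V) (L : Set (ℤ × ℤ → V)) (t : Fin 3 → ℤ × ℤ → V) : Prop where
  tri : IsTri Γ t
  mem : pl t 0 1 ∈ L

/-- two tripods times lines that agree in a column at one point agree there everywhere -/
theorem tcol (hΓ : IsMedian Γ) {t t' : Fin 3 → ℤ × ℤ → V} (ht : IsTri Γ t) (ht' : IsTri Γ t')
    {R x x' : ℤ} (hx : |x - x'| = 1)
    (hag : ∀ (a : Fin 3) (y : ℤ), 0 ≤ y → y ≤ R → t a (x, y) = t' a (x, y)) {a : Fin 3} {y : ℤ} (h0 : 0 ≤ y)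
    (hR : y ≤ R) (h : t a (x', y) = t' a (x', y)) :
    ∀ (b : Fin 3) (y' : ℤ), 0 ≤ y' → y' ≤ R → t b (x', y') = t' b (x', y') := by
  have key : ∀ b c : Fin 3, b ≠ c → ∀ y : ℤ, 0 ≤ y → y ≤ R → t b (x', y) = t' b (x', y) →
      ∀ y', 0 ≤ y' → y' ≤ R → t c (x', y') = t' c (x', y') ∧ t b (x', y') = t' b (x', y') := by
    intro b c hbc y h0 hR h y' h0' hR'
    have := col_prop hΓ (ht.flat hbc) (ht'.flat hbc) hx (S := Set.Icc (-R) R)
      Set.ordConnected_Icc (by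
        intro y hy
        rcases le_total 0 y with hy0 | hy0
        · rw [pl_pos _ _ _ _ _ hy0, pl_pos _ _ _ _ _ hy0]
          exact hag b y hy0 hy.2
        · have e : y = -(-y) := by ring
          rw [e, pl_neg hΓ ht _ _ _ _ (by omega), pl_neg hΓ ht' _ _ _ _ (by omega)]
          exact hag c _ (by omega) (by have := hy.1; omega)) (y₀ := y) ⟨by omega, hR⟩ (by
        rw [pl_pos _ _ _ _ _ h0, pl_pos _ _ _ _ _ h0]
        exact h)
    constructor
    · have h2 := this (-y') ⟨by omega, by omega⟩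
      rwa [pl_neg hΓ ht _ _ _ _ h0', pl_neg hΓ ht' _ _ _ _ h0'] at h2
    · have h2 := this y' ⟨by omega, by omega⟩
      rwa [pl_pos _ _ _ _ _ h0', pl_pos _ _ _ _ _ h0'] at h2
  intro b y' h0' hR'
  by_cases hab : a = b
  · subst hab
    obtain ⟨c, hc⟩ := exists_ne3 a
    exact (key a c hc y h0 hR h y' h0' hR').2
  · exact (key a b hab y h0 hR h y' h0' hR').1

/-- a branching of two tripods times lines gives a product of tripods -/
theorem tp_of (hΓ : IsMedian Γ) (h3 : NoThreeCube Γ) {L : Set (ℤ × ℤ → V)} {R : ℕ} (hR : 1 ≤ R)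
    {t t' : Fin 3 → ℤ × ℤ → V} (htL : LTri Γ L t) (ht' : IsTri Γ t')
    (hag : ∀ (a : Fin 3) (x y : ℤ), -(R : ℤ) ≤ x → x ≤ 0 → 0 ≤ y → y ≤ R →
      t a (x, y) = t' a (x, y))
    (hne : ∀ (a : Fin 3) (y : ℤ), 0 ≤ y → y ≤ R → t a (1, y) ≠ t' a (1, y)) : TP Γ L R := by
  have ht := htL.tri
  -- the divergence
  have key : ∀ a b : Fin 3, ∀ m n m' n' : ℕ, n ≤ R → n' ≤ R →
      (Γ.dist (t a (m, n)) (t' b (m', n')) : ℤ) = m + m' + yd a n b n' := by
    intro a b m n m' n' hn hn'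
    -- planes
    have main : ∀ c d : Fin 3, c ≠ d → ∀ y y' : ℤ, -(R : ℤ) ≤ y → y ≤ R → -(R : ℤ) ≤ y' →
        y' ≤ R → (Γ.dist (pl t c d (m, y)) (pl t' c d (m', y')) : ℤ) = m + m' + |y - y'| := by
      intro c d hcd y y' h1 h2 h4 h5
      have := diverge hΓ h3 (ht.flat hcd) (ht'.flat hcd) (x := 0) (S := Set.Icc (-(R : ℤ)) R) (by
        intro y hy
        by_cases hy0 : y < R
        · exact ⟨y + 1, ⟨by have := hy.1; omega, by omega⟩, by simp⟩
        · exact ⟨y - 1, ⟨by have := hy.1; omega, by have := hy.2; omega⟩, by simp⟩) (by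
        intro y hy
        rcases le_total 0 y with hy0 | hy0
        · rw [pl_pos _ _ _ _ _ hy0, pl_pos _ _ _ _ _ hy0]
          exact hag c 0 y (by omega) le_rfl hy0 hy.2
        · have e : y = -(-y) := by ring
          rw [e, pl_neg hΓ ht _ _ _ _ (by omega), pl_neg hΓ ht' _ _ _ _ (by omega)]
          exact hag d 0 _ (by omega) le_rfl (by omega) (by have := hy.1; omega)) (by
        intro y hy
        rcases le_total 0 y with hy0 | hy0
        · rw [pl_pos _ _ _ _ _ hy0, pl_pos _ _ _ _ _ hy0]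
          exact hne c y hy0 hy.2
        · have e : y = -(-y) := by ring
          rw [e, pl_neg hΓ ht _ _ _ _ (by omega), pl_neg hΓ ht' _ _ _ _ (by omega)]
          exact hne d _ (by omega) (by have := hy.1; omega)) (m := m) (m' := m')
          (by omega) (by omega) (y := y) (y' := y') ⟨h1, h2⟩ ⟨h4, h5⟩
      simpa using this
    by_cases hab : a = b
    · subst hab
      obtain ⟨c, hc⟩ := exists_ne3 a
      have := main a c hc n n' (by omega) (by omega) (by omega) (by omega)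
      rw [pl_pos _ _ _ _ _ (by omega), pl_pos _ _ _ _ _ (by omega)] at this
      rw [this, yd_same]
    · have := main a b hab n (-n') (by omega) (by omega) (by omega) (by omega)
      rw [pl_pos _ _ _ _ _ (by omega), pl_neg hΓ ht' _ _ _ _ (by omega)] at this
      rw [this, yd_ne hab, sub_neg_eq_add, abs_of_nonneg (by omega : (0 : ℤ) ≤ n + n')]
  refine ⟨fun a m b n => if a = 0 then t b (m, n) else if a = 1 then t b (-m, n) else
    t' b (m, n), ?_, pl t 0 1, htL.mem, ?_⟩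
  · intro a b a' b' m n m' n' hm hn hm' hn'
    have e1 : ∀ b : Fin 3, ∀ m n : ℕ, m ≤ R → n ≤ R → t b (-(m : ℤ), n) = t' b (-(m : ℤ), n) :=
      fun b m n hm hn => hag b _ _ (by omega) (by omega) (by omega) (by omega)
    have c1 : ∀ b b' : Fin 3, ∀ x x' : ℤ, ∀ n n' : ℕ,
        (Γ.dist (t b (x, n)) (t b' (x', n')) : ℤ) = |x - x'| + yd b n b' n' :=
      fun b b' x x' n n' => ht b b' _ _ (by simp) (by simp)
    have c2 : ∀ b b' : Fin 3, ∀ x x' : ℤ, ∀ n n' : ℕ,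
        (Γ.dist (t' b (x, n)) (t' b' (x', n')) : ℤ) = |x - x'| + yd b n b' n' :=
      fun b b' x x' n n' => ht' b b' _ _ (by simp) (by simp)
    have a1 : |(-(m : ℤ)) - (-(m' : ℤ))| = |(m : ℤ) - m'| := by
      rw [show (-(m : ℤ)) - (-(m' : ℤ)) = -((m : ℤ) - m') by ring, abs_neg]
    have a2 : |(-(m : ℤ)) - m'| = (m : ℤ) + m' := by
      rw [show (-(m : ℤ)) - m' = -((m : ℤ) + m') by ring, abs_neg, abs_of_nonneg (by omega)]
    have a3 : |(m : ℤ) - (-m')| = (m : ℤ) + m' := by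
      rw [sub_neg_eq_add, abs_of_nonneg (by omega)]
    fin_cases a <;> fin_cases a' <;> simp only [Fin.zero_eta, Fin.mk_one, Fin.reduceFinMk,
      Fin.isValue, if_true, one_ne_zero, if_false, Fin.reduceEq, zero_ne_one]
    · rw [c1, yd_same]
    · rw [c1, a3, yd_ne (show (0 : Fin 3) ≠ 1 by decide)]
    · rw [key _ _ _ _ _ _ hn hn', yd_ne (show (0 : Fin 3) ≠ 2 by decide)]
    · rw [c1, a2, yd_ne (show (1 : Fin 3) ≠ 0 by decide)]
    · rw [c1, a1, yd_same]
    · rw [e1 _ _ _ hm hn, c2, a2, yd_ne (show (1 : Fin 3) ≠ 2 by decide)]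
    · rw [dcomm, key _ _ _ _ _ _ hn' hn, yd_ne (show (2 : Fin 3) ≠ 0 by decide), yd_comm b']
      ring
    · rw [e1 _ _ _ hm' hn', c2, a3, yd_ne (show (2 : Fin 3) ≠ 1 by decide)]
    · rw [c2, yd_same]
  · intro m n _ _
    simp only [Fin.isValue, if_true, one_ne_zero, if_false]
    refine ⟨pl_pos _ _ _ _ _ (by omega), pl_pos _ _ _ _ _ (by omega),
      pl_neg hΓ ht _ _ _ _ (by omega), pl_neg hΓ ht _ _ _ _ (by omega)⟩

theorem IsTri.sh {t : Fin 3 → ℤ × ℤ → V} (ht : IsTri Γ t) (c : ℤ) :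
    IsTri Γ (fun a z => t a (z.1 + c, z.2)) := fun a b z w hz hw => by
  have := ht a b (z.1 + c, z.2) (w.1 + c, w.2) hz hw
  simpa using this

theorem IsTri.neg {t : Fin 3 → ℤ × ℤ → V} (ht : IsTri Γ t) :
    IsTri Γ (fun a z => t a (-z.1, z.2)) := fun a b z w hz hw => by
  have := ht a b (-z.1, z.2) (-w.1, w.2) hz hw
  simp only [] at this ⊢
  rw [this, show -z.1 - -w.1 = -(z.1 - w.1) by ring, abs_neg]

/-- closed under horizontal translations -/
def HInv (L : Set (ℤ × ℤ → V)) : Prop := ∀ h ∈ L, ∀ c : ℤ, (fun z => h (z.1 + c, z.2)) ∈ L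

theorem HInv.ng {L : Set (ℤ × ℤ → V)} (hL : HInv L) : HInv (ng L) := by
  intro h hh c
  have := hL _ hh (-c)
  simp only [TT.ng, Set.mem_ofPred_eq] at this ⊢
  simpa only [neg_add_rev, neg_neg, add_comm] using this

theorem LTri.sh {L : Set (ℤ × ℤ → V)} (hL : HInv L) {t : Fin 3 → ℤ × ℤ → V} (ht : LTri Γ L t)
    (c : ℤ) : LTri Γ L (fun a z => t a (z.1 + c, z.2)) :=
  ⟨ht.tri.sh c, hL _ ht.mem c⟩

theorem LTri.neg {L : Set (ℤ × ℤ → V)} {t : Fin 3 → ℤ × ℤ → V} (ht : LTri Γ L t) :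
    LTri Γ (ng L) (fun a z => t a (-z.1, z.2)) := by
  refine ⟨ht.tri.neg, ?_⟩
  have := ht.mem
  simp only [ng, Set.mem_ofPred_eq, pl, neg_neg] at this ⊢
  exact this

/-- determinism to the right -/
theorem tdet (hΓ : IsMedian Γ) (h3 : NoThreeCube Γ) {L : Set (ℤ × ℤ → V)} (hL : HInv L) {R : ℕ}
    (hR : 1 ≤ R) (hTP : ¬ TP Γ L R)
    {t t' : Fin 3 → ℤ × ℤ → V} (ht : LTri Γ L t) (ht' : IsTri Γ t') (c : ℤ)
    (hag : ∀ (a : Fin 3) (x y : ℤ), c - R ≤ x → x ≤ c → 0 ≤ y → y ≤ R →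
      t a (x, y) = t' a (x, y)) :
    ∀ (a : Fin 3) (y : ℤ), 0 ≤ y → y ≤ R → t a (c + 1, y) = t' a (c + 1, y) := by
  by_contra hcon
  apply hTP
  refine tp_of hΓ h3 hR (ht.sh hL c) (ht'.sh c) ?_ ?_
  · intro a x y h1 h2 h4 h5
    exact hag a (x + c) y (by omega) (by omega) h4 h5
  · intro a y h1 h2 h
    apply hcon
    simp only [] at h
    rw [add_comm 1 c] at h
    exact tcol hΓ ht.tri ht' (x := c) (x' := c + 1) (by simp)
      (fun a y h1 h2 => hag a c y (by omega) le_rfl h1 h2) h1 h2 h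

/-- agreement on a window spreads to the right -/
theorem tspread1 (hΓ : IsMedian Γ) (h3 : NoThreeCube Γ) {L : Set (ℤ × ℤ → V)} (hL : HInv L)
    {R : ℕ} (hR : 1 ≤ R) (hTP : ¬ TP Γ L R)
    {t t' : Fin 3 → ℤ × ℤ → V} (ht : LTri Γ L t) (ht' : IsTri Γ t') (c : ℤ)
    (hag : ∀ (a : Fin 3) (x y : ℤ), c - R ≤ x → x ≤ c → 0 ≤ y → y ≤ R →
      t a (x, y) = t' a (x, y)) :
    ∀ (a : Fin 3) (x y : ℤ), c - R ≤ x → 0 ≤ y → y ≤ R → t a (x, y) = t' a (x, y) := by
  have key : ∀ n : ℕ, ∀ (a : Fin 3) (x y : ℤ), c - R ≤ x → x ≤ c + n → 0 ≤ y → y ≤ R →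
      t a (x, y) = t' a (x, y) := by
    intro n
    induction n with
    | zero => intro a x y h1 h2 h4 h5; exact hag a x y h1 (by simpa using h2) h4 h5
    | succ n ih =>
      have e := tdet hΓ h3 hL hR hTP ht ht' (c + n) (fun a x y h1 h2 h4 h5 =>
        ih a x y (by omega) h2 h4 h5)
      intro a x y h1 h2 h4 h5
      rcases (show x ≤ c + n ∨ x = c + n + 1 by push_cast at h2; omega) with h6 | rfl
      · exact ih a x y h1 h6 h4 h5
      · exact e a y h4 h5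
  intro a x y h1 h4 h5
  exact key (x - c).toNat a x y h1 (by omega) h4 h5

/-- agreement on a window spreads -/
theorem tspread (hΓ : IsMedian Γ) (h3 : NoThreeCube Γ) {L : Set (ℤ × ℤ → V)} (hL : HInv L)
    {R : ℕ} (hR : 1 ≤ R) (hTP : ¬ TP Γ L R)
    {t t' : Fin 3 → ℤ × ℤ → V} (ht : LTri Γ L t) (ht' : IsTri Γ t') (c : ℤ)
    (hag : ∀ (a : Fin 3) (x y : ℤ), c - R ≤ x → x ≤ c → 0 ≤ y → y ≤ R →
      t a (x, y) = t' a (x, y)) :
    ∀ (a : Fin 3) (x y : ℤ), 0 ≤ y → y ≤ R → t a (x, y) = t' a (x, y) := by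
  intro a x y h4 h5
  rcases le_total (c - R) x with h | h
  · exact tspread1 hΓ h3 hL hR hTP ht ht' c hag a x y h h4 h5
  · have := tspread1 hΓ h3 hL.ng hR (fun h => hTP h.neg) ht.neg ht'.neg (-c + R) (by
      intro a x y h1 h2 h4 h5
      exact hag a (-x) y (by omega) (by omega) h4 h5) a (-x) y (by omega) h4 h5
    simpa using this

end Pool.Agent.V7H57.TT
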